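import Pool.Agent.Ins30.Clutter

set_option autoImplicit false

/-! # A nonideal clutter without an orientation pair

Eleven explicit triples on eleven points form a nonideal clutter that admits no orientation pair. -/

namespace Pool.Agent.Results.MP_8ed634_co.ElevenTriples

open Pool.Agent.Ins30

variable {V : Type*} [Fintype V] [DecidableEq V]

/-- The blocker of `C`: the inclusion-minimal sets that meet every member of `C`. -/
def blocker (C : Finset (Finset V)) : Set (Finset V) :=
  {Y | Minimal (fun Z : Finset V => ∀ X ∈ C, (Z ∩ X).Nonempty) Y}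

/-- The polyhedron `Q(C)` of all `x ≥ 0` with `x(X) ≥ 1` for every member `X` of `C`. -/
def polyhedron (C : Finset (Finset V)) : Set (V → ℝ) :=
  {x | (∀ v, 0 ≤ x v) ∧ ∀ X ∈ C, 1 ≤ ∑ v ∈ X, x v}

/-- `C` is ideal: all vertices (extreme points) of `Q(C)` are integer vectors. -/
def IsIdeal (C : Finset (Finset V)) : Prop :=
  ∀ x ∈ (polyhedron C).extremePoints ℝ, ∀ v, ∃ k : ℤ, x v = k

/-- The pair of maps `p : C → V`, `q : b(C) → V` is an orientation pair for `C`. -/
def IsOrientationPair (C : Finset (Finset V)) (p : {X // X ∈ C} → V)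
    (q : {Y // Y ∈ blocker C} → V) : Prop :=
  (∀ X, p X ∈ X.1) ∧ (∀ Y, q Y ∈ Y.1) ∧ ∀ X Y, p X = q Y → 2 ≤ (X.1 ∩ Y.1).card

/-- The eleven triples. -/
def triples : Finset (Finset (Fin 11)) :=
  {{0, 1, 2}, {0, 1, 4}, {0, 2, 10}, {1, 3, 4}, {2, 5, 7}, {3, 4, 9}, {3, 8, 9}, {5, 6, 7},
    {5, 6, 10}, {6, 8, 10}, {7, 8, 9}}

theorem triples_eq : triples = Clutter.clut := by decide +kernel

theorem mem_triples (i : Fin 11) : Clutter.mem i ∈ triples := by
  rw [triples_eq]; exact Finset.mem_image_of_mem _ (Finset.mem_univ i)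

theorem clutter : IsAntichain (· ⊆ ·) (triples : Set (Finset (Fin 11))) := by
  intro X hX Y hY hne hsub
  rw [Finset.mem_coe, triples_eq] at hX hY
  obtain ⟨i, -, rfl⟩ := Finset.mem_image.mp hX
  obtain ⟨j, -, rfl⟩ := Finset.mem_image.mp hY
  exact hne (Clutter.mem_antichain i j hsub)

/-- the system `y(X) = 1` for all triples has the unique solution `1/3` -/
theorem unique_sol (y : Fin 11 → ℝ) (h : ∀ X ∈ triples, ∑ v ∈ X, y v = 1) (v : Fin 11) :
    y v = 1 / 3 := by
  have h0 := h {0, 1, 2} (by decide)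
  have h1 := h {0, 1, 4} (by decide)
  have h2 := h {0, 2, 10} (by decide)
  have h3 := h {1, 3, 4} (by decide)
  have h4 := h {2, 5, 7} (by decide)
  have h5 := h {3, 4, 9} (by decide)
  have h6 := h {3, 8, 9} (by decide)
  have h7 := h {5, 6, 7} (by decide)
  have h8 := h {5, 6, 10} (by decide)
  have h9 := h {6, 8, 10} (by decide)
  have h10 := h {7, 8, 9} (by decide)
  rw [Finset.sum_insert (by decide), Finset.sum_insert (by decide), Finset.sum_singleton]
    at h0 h1 h2 h3 h4 h5 h6 h7 h8 h9 h10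
  fin_cases v <;> dsimp only [Fin.zero_eta, Fin.mk_one, Fin.reduceFinMk] <;> linarith

theorem third_mem : (fun _ => 1 / 3 : Fin 11 → ℝ) ∈ polyhedron triples := by
  refine ⟨fun _ => by norm_num, ?_⟩
  intro X hX
  have hc : ∀ X ∈ triples, X.card = 3 := by decide +kernel
  rw [Finset.sum_const, hc X hX]
  norm_num

theorem third_extreme : (fun _ => 1 / 3 : Fin 11 → ℝ) ∈ (polyhedron triples).extremePoints ℝ := by
  rw [mem_extremePoints]
  refine ⟨third_mem, ?_⟩
  rintro y hy z hz ⟨a, b, ha, hb, hab, hx⟩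
  have hc : ∀ X ∈ triples, X.card = 3 := by decide +kernel
  have key : ∀ X ∈ triples, ∑ v ∈ X, y v = 1 ∧ ∑ v ∈ X, z v = 1 := by
    intro X hX
    have e1 : a * ∑ v ∈ X, y v + b * ∑ v ∈ X, z v = 1 := by
      rw [Finset.mul_sum, Finset.mul_sum, ← Finset.sum_add_distrib]
      have e2 : ∀ v ∈ X, a * y v + b * z v = 1 / 3 := fun v _ => by
        have := congrFun hx v
        simpa using this
      rw [Finset.sum_congr rfl e2, Finset.sum_const, hc X hX]
      norm_num
    have hy1 := hy.2 X hX
    have hz1 := hz.2 X hX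
    constructor <;> nlinarith
  constructor
  · funext v; exact unique_sol y (fun X hX => (key X hX).1) v
  · funext v; exact unique_sol z (fun X hX => (key X hX).2) v

theorem not_ideal : ¬ IsIdeal triples := by
  intro h
  obtain ⟨k, hk⟩ := h _ third_extreme 0
  have h1 : (3 * k : ℤ) = 1 := by
    have h2 : (1 / 3 : ℝ) = k := hk
    have : (3 * (k : ℝ)) = 1 := by rw [← h2]; norm_num
    exact_mod_cast this
  omega

theorem blk_mem (j : Fin 36) : Clutter.blk j ∈ blocker triples := by
  refine ⟨?_, ?_⟩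
  · intro X hX
    rw [triples_eq] at hX
    obtain ⟨i, -, rfl⟩ := Finset.mem_image.mp hX
    rw [Finset.inter_comm]
    exact Clutter.blk_cover j i
  · intro Z hcov hZ
    intro u hu
    obtain ⟨i, hi⟩ := Clutter.blk_private j u hu
    obtain ⟨v, hv⟩ := hcov (Clutter.mem i) (mem_triples i)
    rw [Finset.mem_inter] at hv
    have hv2 : v ∈ Clutter.mem i ∩ Clutter.blk j := Finset.mem_inter.mpr ⟨hv.2, hZ hv.1⟩
    rw [hi, Finset.mem_singleton] at hv2
    rw [← hv2]
    exact hv.1

/-- The eleven triples form a nonideal clutter that admits no orientation pair. -/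
theorem result :
    IsAntichain (· ⊆ ·) (triples : Set (Finset (Fin 11))) ∧ ¬ IsIdeal triples ∧
      ¬ ∃ p q, IsOrientationPair triples p q := by
  refine ⟨clutter, not_ideal, ?_⟩
  rintro ⟨p, q, hp, hq, hpq⟩
  refine Clutter.check_sound (fun i => p ⟨Clutter.mem i, mem_triples i⟩) (fun i => hp _) ?_
    Clutter.root [] (by simp) Clutter.check_root
  intro j
  refine ⟨q ⟨Clutter.blk j, blk_mem j⟩, hq _, ?_⟩
  intro i hi
  exact hpq _ _ hi

end Pool.Agent.Results.MP_8ed634_co.ElevenTriples
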